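import Pool.Agent.helper70.M10.Tab
import Pool.Agent.helper70.M9.G1a

set_option autoImplicit false

/-!
# M10-J (R1): rows, values of the packed signed numbers
-/

namespace Oct.N

open Oct

namespace R1

open Oct.G1a

/-! ### values -/

theorem smul_val (x y : SM) : (smul x y).val = x.val * y.val := by
  obtain ⟨xs, xv⟩ := x
  obtain ⟨ys, yv⟩ := y
  have h : ((Nat.mul xv yv : ℕ) : ℤ) = (xv : ℤ) * yv := Nat.cast_mul _ _
  cases xs <;> cases ys
  · show ((Nat.mul xv yv : ℕ) : ℤ) = (xv : ℤ) * yv
    exact h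
  · show -((Nat.mul xv yv : ℕ) : ℤ) = (xv : ℤ) * -(yv : ℤ)
    rw [h]; ring
  · show -((Nat.mul xv yv : ℕ) : ℤ) = -(xv : ℤ) * yv
    rw [h]; ring
  · show ((Nat.mul xv yv : ℕ) : ℤ) = -(xv : ℤ) * -(yv : ℤ)
    rw [h]; ring

theorem smulZ_val (z : ℤ) (p : SM) : (smulZ z p).val = z * p.val := by
  obtain ⟨s, v⟩ := p
  cases z with
  | ofNat n =>
    have h : ((Nat.mul n v : ℕ) : ℤ) = (n : ℤ) * v := Nat.cast_mul _ _
    cases s
    · show ((Nat.mul n v : ℕ) : ℤ) = (n : ℤ) * (v : ℤ)
      exact h
    · show -((Nat.mul n v : ℕ) : ℤ) = (n : ℤ) * -(v : ℤ)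
      rw [h]; ring
  | negSucc n =>
    have h : ((Nat.mul (Nat.succ n) v : ℕ) : ℤ) = ((Nat.succ n : ℕ) : ℤ) * v := Nat.cast_mul _ _
    rw [Int.negSucc_eq]
    cases s
    · show -((Nat.mul (Nat.succ n) v : ℕ) : ℤ) = -((n : ℤ) + 1) * (v : ℤ)
      rw [h]; push_cast; ring
    · show ((Nat.mul (Nat.succ n) v : ℕ) : ℤ) = -((n : ℤ) + 1) * -(v : ℤ)
      rw [h]; push_cast; ring

theorem sshl_val (x : SM) (B : ℕ) : (sshl x B).val = x.val * 2 ^ B := by
  obtain ⟨s, v⟩ := x
  have h : ((Nat.shiftLeft v B : ℕ) : ℤ) = (v : ℤ) * 2 ^ B := by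
    have : Nat.shiftLeft v B = v * 2 ^ B := Nat.shiftLeft_eq v B
    rw [this]; push_cast; ring
  cases s
  · exact h
  · show -((Nat.shiftLeft v B : ℕ) : ℤ) = -(v : ℤ) * 2 ^ B
    rw [h]; ring

/-! ### homogenization -/

theorem homP_up {R : Type} [CommRing R] (A D : R) (q : List ℤ) : ∀ (n j : ℕ),
    q.length ≤ n + 1 → homP (n + j) q A D = D ^ j * homP n q A D := by
  induction q with
  | nil => intro n j _; simp [homP]
  | cons g l ih =>
    intro n j h
    rw [List.length_cons] at h
    cases n with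
    | zero =>
      have hl : l = [] := List.length_eq_zero_iff.mp (by omega)
      subst hl
      simp only [homP]
      rw [pow_add]
      ring
    | succ n =>
      have e : n + 1 + j - 1 = n + j := by omega
      simp only [homP, e]
      rw [ih n j (by omega)]
      simp only [Nat.add_sub_cancel]
      ring

theorem length_addP (p : List ℤ) : ∀ q : List ℤ, (addP p q).length = max p.length q.length := by
  induction p with
  | nil => intro q; simp [addP]
  | cons a p ih =>
    intro q
    cases q with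
    | nil => simp [addP]
    | cons b q => simp only [addP, List.length_cons, ih]; omega

theorem length_mulP (p q : List ℤ) : (mulP p q).length ≤ p.length + (q.length - 1) := by
  induction p with
  | nil => simp [mulP]
  | cons a p ih =>
    simp only [mulP, length_addP, smulP, List.length_map, List.length_cons]
    omega

end R1

open R1

theorem homP_mulP {R : Type} [CommRing R] {m n : ℕ} {p q : List ℤ} (hp : p.length ≤ m + 1)
    (hq : q.length ≤ n + 1) (A D : R) :
    homP (m + n) (mulP p q) A D = homP m p A D * homP n q A D := by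
  induction p generalizing m with
  | nil => simp [homP, mulP]
  | cons a p ih =>
    rw [List.length_cons] at hp
    rw [mulP, G1a.homP_add, smulP, G1a.homP_smul, Nat.add_comm m n, homP_up A D q n m hq]
    cases m with
    | zero =>
      have hl : p = [] := List.length_eq_zero_iff.mp (by omega)
      subst hl
      simp [homP, mulP]
    | succ m =>
      have e : n + (m + 1) - 1 = m + n := by omega
      simp only [homP, e, Nat.add_sub_cancel]
      rw [ih (by omega)]
      push_cast
      ring

namespace R1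

open Oct.G1a

/-! ### invariants -/

/-- `v` is the value of the polynomial `l` of degree `≤ d`, homogenized -/
def Good (A D : ℤ) (d : ℕ) (l : List ℤ) (v : SM) : Prop :=
  l.length ≤ d + 1 ∧ v.val = homP (R := ℤ) d l A D

/-- entries of degrees `k n + e`, `k (n - 1) + e`, ... -/
inductive Inv (A D : ℤ) (k e : ℕ) : ℕ → List (List ℤ) → List SM → Prop
  | nil (n : ℕ) : Inv A D k e n [] []
  | zero {l : List ℤ} {v : SM} : Good A D e l v → Inv A D k e 0 [l] [v]
  | succ {n : ℕ} {l : List ℤ} {v : SM} {L : List (List ℤ)} {V : List SM} :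
      Good A D (k * (n + 1) + e) l v → Inv A D k e n L V → Inv A D k e (n + 1) (l :: L) (v :: V)

variable {A D : ℤ}

theorem good_nil (d : ℕ) : Good A D d [] ⟨false, 0⟩ := ⟨by simp, rfl⟩

theorem good_mul {d d' : ℕ} {p q : List ℤ} {v w : SM} (h : Good A D d p v)
    (h' : Good A D d' q w) : Good A D (d + d') (mulP p q) (smul v w) := by
  refine ⟨?_, ?_⟩
  · have := length_mulP p q
    have h1 := h.1
    have h2 := h'.1
    omega
  · rw [smul_val, h.2, h'.2, homP_mulP h.1 h'.1]

theorem good_add {d : ℕ} {p q : List ℤ} {v w : SM} (h : Good A D d p v)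
    (h' : Good A D d q w) : Good A D d (addP p q) (sadd v w) := by
  refine ⟨?_, ?_⟩
  · rw [length_addP]
    have h1 := h.1
    have h2 := h'.1
    omega
  · rw [sadd_val, h.2, h'.2, homP_add]

theorem good_smulZ {d : ℕ} {p : List ℤ} {v : SM} (c : ℤ) (h : Good A D d p v) :
    Good A D d (smulP c p) (smulZ c v) := by
  refine ⟨?_, ?_⟩
  · rw [smulP, List.length_map]
    exact h.1
  · rw [smulZ_val, h.2, smulP, homP_smul]
    simp

theorem good_up {d j c : ℕ} {p : List ℤ} {v : SM} (hc : (c : ℤ) = D ^ j) (h : Good A D d p v) :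
    Good A D (d + j) p (smulN c v) := by
  refine ⟨?_, ?_⟩
  · have h1 := h.1
    omega
  · rw [smulN_val, h.2, homP_up A D p d j h.1, hc]

theorem good_cast {d d' : ℕ} (e : d = d') {p : List ℤ} {v : SM} (h : Good A D d p v) :
    Good A D d' p v := e ▸ h

/-! ### powers and forms -/

theorem inv_pw {Yl : List ℤ} {Y : SM} (hY : Good A D 1 Yl Y) : ∀ n : ℕ,
    ∃ l v L V, pwL Yl n = l :: L ∧ pwS Y n = v :: V ∧ Good A D n l v ∧
      Inv A D 1 0 n (pwL Yl n) (pwS Y n) := by
  intro n
  induction n with
  | zero =>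
    have h : Good A D 0 [1] ⟨false, 1⟩ := ⟨by simp, by simp [homP, SM.val]⟩
    exact ⟨[1], ⟨false, 1⟩, [], [], rfl, rfl, h, Inv.zero h⟩
  | succ n ih =>
    obtain ⟨l, v, L, V, e1, e2, h, hI⟩ := ih
    have g : Good A D (n + 1) (mulP Yl l) (smul Y v) := by
      have := good_mul hY h
      rwa [Nat.add_comm] at this
    have E1 : pwL Yl (n + 1) = mulP Yl l :: pwL Yl n := by
      rw [pwL, e1]
      rfl
    have E2 : pwS Y (n + 1) = smul Y v :: pwS Y n := by
      show (List.rec (motive := fun _ => List SM) [] (fun a _ _ => smul Y a :: pwS Y n)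
        (pwS Y n) : List SM) = _
      rw [e2]
    refine ⟨mulP Yl l, smul Y v, pwL Yl n, pwS Y n, E1, E2, g, ?_⟩
    rw [E1, E2]
    refine Inv.succ (good_cast (by omega) g) hI

theorem inv_pw' {Yl : List ℤ} {Y : SM} (hY : Good A D 1 Yl Y) (n : ℕ) :
    Inv A D 1 0 n (pwL Yl n) (pwS Y n) := by
  obtain ⟨_, _, _, _, _, _, _, h⟩ := inv_pw hY n
  exact h

theorem formL_nil (X : List ℤ) (l : List ℤ) : formL X l [] = [] := by
  cases l <;> rfl

theorem formG_nil (X : SM) (l : List ℤ) : formG X l [] = ⟨false, 0⟩ := by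
  cases l <;> rfl

theorem formG_cons (X : SM) (c : ℤ) (l : List ℤ) (p : SM) (P : List SM) :
    formG X (c :: l) (p :: P) = sadd (smulZ c p) (smul X (formG X l P)) := rfl

theorem good_form {Xl : List ℤ} {X : SM} (hX : Good A D 1 Xl X) (l : List ℤ) : ∀ {n : ℕ}
    {P : List (List ℤ)} {V : List SM}, Inv A D 1 0 n P V → Good A D n (formL Xl l P)
      (formG X l V) := by
  induction l with
  | nil =>
    intro n P V _
    have e1 : formL Xl [] P = [] := by cases P <;> rfl
    have e2 : formG X [] V = ⟨false, 0⟩ := rfl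
    rw [e1, e2]
    exact good_nil n
  | cons c l ih =>
    intro n P V h
    cases h with
    | nil =>
      rw [formL_nil, formG_nil]
      exact good_nil n
    | @zero p v h =>
      have e1 : formL Xl (c :: l) [p] = addP (smulP c p) (mulP (formL Xl l []) Xl) := rfl
      rw [e1, formL_nil, formG_cons, formG_nil]
      refine good_add (good_smulZ c h) ⟨by simp [mulP], ?_⟩
      rw [smul_val]
      simp [homP, mulP, SM.val]
    | @succ n p v L V h hI =>
      have e1 : formL Xl (c :: l) (p :: L) = addP (smulP c p) (mulP (formL Xl l L) Xl) := rfl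
      rw [e1, formG_cons]
      refine good_add (good_smulZ c (good_cast (by omega) h)) ?_
      have h1 := good_mul (ih hI) hX
      refine ⟨h1.1, ?_⟩
      rw [← h1.2, smul_val, smul_val, mul_comm]

theorem inv_forms {Xl : List ℤ} {X : SM} (hX : Good A D 1 Xl X) (fm : List (List ℤ)) : ∀ {n : ℕ}
    {P : List (List ℤ)} {V : List SM}, Inv A D 1 0 n P V →
      Inv A D 1 0 n (formsL Xl fm P) (formsG X fm V) := by
  induction fm with
  | nil =>
    intro n P V _
    have e1 : formsL Xl [] P = [] := by cases P <;> rfl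
    have e2 : formsG X [] V = [] := rfl
    rw [e1, e2]
    exact Inv.nil n
  | cons l fm ih =>
    intro n P V h
    have hf := good_form hX l h
    cases h with
    | nil => exact Inv.nil n
    | @zero p v h =>
      have e1 : formsL Xl (l :: fm) [p] = formL Xl l [p] :: formsL Xl fm [] := rfl
      have e2 : formsG X (l :: fm) [v] = formG X l [v] :: formsG X fm [] := rfl
      have e3 : formsL Xl fm [] = [] := by cases fm <;> rfl
      have e4 : formsG X fm [] = [] := by cases fm <;> rfl
      rw [e1, e2, e3, e4]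
      exact Inv.zero hf
    | @succ n p v L V h hI =>
      have e1 : formsL Xl (l :: fm) (p :: L) = formL Xl l (p :: L) :: formsL Xl fm L := rfl
      have e2 : formsG X (l :: fm) (v :: V) = formG X l (v :: V) :: formsG X fm V := rfl
      rw [e1, e2]
      exact Inv.succ (good_cast (by omega) hf) (ih hI)

/-! ### operations on lists -/

theorem zipN_cons (v : SM) (V : List SM) (p : ℕ) (P : List ℕ) :
    zipN (v :: V) (p :: P) = smulN p v :: zipN V P := rfl

theorem inv_zip {k e Dn : ℕ} (hk : 1 ≤ k) (hD : (Dn : ℤ) = D) : ∀ {n : ℕ} {L : List (List ℤ)}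
    {V : List SM}, Inv A D 1 e n L V → Inv A D k e n L (zipN V (pw (Dn ^ (k - 1)) n)) := by
  intro n L V h
  induction h with
  | nil n =>
    have : zipN [] (pw (Dn ^ (k - 1)) n) = [] := rfl
    rw [this]
    exact Inv.nil n
  | @zero l v h =>
    have : zipN [v] (pw (Dn ^ (k - 1)) 0) = [smulN 1 v] := rfl
    rw [this]
    refine Inv.zero ?_
    have := good_up (c := 1) (j := 0) (by simp) h
    exact good_cast (by omega) this
  | @succ n l v L V h hI ih =>
    rw [pw_succ, zipN_cons]
    refine Inv.succ ?_ ih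
    have := good_up (c := (Dn ^ (k - 1)) ^ (n + 1)) (j := (k - 1) * (n + 1))
      (by push_cast; rw [hD, pow_mul]) h
    refine good_cast ?_ this
    obtain ⟨k, rfl⟩ : ∃ k', k = k' + 1 := ⟨k - 1, by omega⟩
    simp only [Nat.add_sub_cancel]
    ring

theorem stG_cons (b m : SM) (M : List SM) (c : SM) :
    stG b (m :: M) c = sadd c (smul b m) :: stG b M m := rfl

theorem inv_st {k e : ℕ} {b : List ℤ} {bv : SM} (hb : Good A D k b bv) : ∀ {n : ℕ}
    {M : List (List ℤ)} {V : List SM}, Inv A D k e n M V → ∀ {c : List ℤ} {v : SM},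
      Good A D (k * (n + 1) + e) c v → Inv A D k e (n + 1) (stL b M c) (stG bv V v) := by
  intro n M V h
  induction h with
  | nil n =>
    intro c v hc
    exact Inv.succ hc (Inv.nil n)
  | @zero m w h =>
    intro c v hc
    have e1 : stL b [m] c = [addP c (mulP b m), m] := rfl
    have e2 : stG bv [w] v = [sadd v (smul bv w), w] := rfl
    rw [e1, e2]
    refine Inv.succ (good_add hc (good_cast (by ring) (good_mul hb h))) (Inv.zero h)
  | @succ n m w M V h hI ih =>
    intro c v hc
    have e1 : stL b (m :: M) c = addP c (mulP b m) :: stL b M m := rfl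
    rw [e1, stG_cons]
    exact Inv.succ (good_add hc (good_cast (by ring) (good_mul hb h))) (ih h)

theorem inv_sh {k e : ℕ} {b : List ℤ} {bv : SM} (hb : Good A D k b bv) : ∀ {n : ℕ}
    {L : List (List ℤ)} {V : List SM}, Inv A D k e n L V →
      Inv A D k e n (shL b L) (shG bv V) := by
  intro n L V h
  induction h with
  | nil n => exact Inv.nil n
  | @zero l v h => exact Inv.zero h
  | @succ n l v L V h hI ih =>
    have e1 : shL b (l :: L) = stL b (shL b L) l := rfl
    have e2 : shG bv (v :: V) = stG bv (shG bv V) v := rfl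
    rw [e1, e2]
    exact inv_st hb ih h

theorem inv_sc {k e al Dn : ℕ} (hD : (Dn : ℤ) = D) : ∀ {n : ℕ} {L : List (List ℤ)}
    {V : List SM}, Inv A D k e n L V → ∀ q j : ℕ,
      (scG (al * Dn ^ k) V (q * Dn ^ (k * j))).map SM.val =
        (scL (al : ℤ) L (q : ℤ)).map (fun l => homP (R := ℤ) (k * (n + j) + e) l A D) := by
  intro n L V h
  induction h with
  | nil n => intro q j; rfl
  | @zero l v h =>
    intro q j
    show [(smulN (q * Dn ^ (k * j)) v).val] = [homP (R := ℤ) (k * (0 + j) + e) (smulP (q : ℤ) l) A D]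
    have e1 : k * (0 + j) + e = e + k * j := by ring
    rw [smulN_val, h.2, smulP, homP_smul, e1, homP_up A D l e (k * j) h.1]
    push_cast
    rw [hD]
    simp only [List.cons.injEq, and_true]
    ring
  | @succ n l v L V h hI ih =>
    intro q j
    show (smulN (q * Dn ^ (k * j)) v).val ::
        (scG (al * Dn ^ k) V ((q * Dn ^ (k * j)) * (al * Dn ^ k))).map SM.val =
      homP (R := ℤ) (k * (n + 1 + j) + e) (smulP (q : ℤ) l) A D ::
        (scL (al : ℤ) L ((q : ℤ) * al)).map (fun l => homP (R := ℤ) (k * (n + 1 + j) + e) l A D)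
    have e1 : k * (n + 1 + j) + e = (k * (n + 1) + e) + k * j := by ring
    have e2 : (q * Dn ^ (k * j)) * (al * Dn ^ k) = (q * al) * Dn ^ (k * (j + 1)) := by
      rw [Nat.mul_add k j 1, pow_add]
      ring
    have e3 : ((q : ℤ) * al) = ((q * al : ℕ) : ℤ) := by push_cast; ring
    have e4 : k * (n + 1 + j) + e = k * (n + (j + 1)) + e := by ring
    rw [e2, ih (q * al) (j + 1), e3, ← e4]
    congr 1
    rw [smulN_val, h.2, smulP, homP_smul, e1, homP_up A D l _ (k * j) h.1]
    push_cast
    rw [hD]
    ring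

theorem inv_sc' {k e al Dn : ℕ} (hD : (Dn : ℤ) = D) {n : ℕ} {L : List (List ℤ)}
    {V : List SM} (h : Inv A D k e n L V) :
      (scG (al * Dn ^ k) V 1).map SM.val =
        (scL (al : ℤ) L 1).map (fun l => homP (R := ℤ) (k * n + e) l A D) := by
  have := inv_sc (al := al) hD h 1 0
  simpa using this

theorem inv_len {k e n : ℕ} {L : List (List ℤ)} {V : List SM} (h : Inv A D k e n L V) :
    L.length = V.length := by
  induction h with
  | nil n => rfl
  | zero h => rfl
  | succ h hI ih => simp [ih]

theorem inv_map {k e j : ℕ} {f : List ℤ → List ℤ} {g : SM → SM}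
    (hfg : ∀ d l v, Good A D d l v → Good A D (d + j) (f l) (g v)) {n : ℕ} {L : List (List ℤ)}
    {V : List SM} (h : Inv A D k e n L V) : Inv A D k (e + j) n (L.map f) (V.map g) := by
  induction h with
  | nil n => exact Inv.nil n
  | zero h => exact Inv.zero (hfg _ _ _ h)
  | succ h hI ih => exact Inv.succ (good_cast (by ring) (hfg _ _ _ h)) ih

theorem inv_add {k e n : ℕ} {L L' : List (List ℤ)} {V V' : List SM} (h : Inv A D k e n L V)
    (h' : Inv A D k e n L' V') (hl : L.length = L'.length) :
    Inv A D k e n (addT L L') (addS V V') := by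
  induction h generalizing L' V' with
  | nil n =>
    cases L' with
    | nil =>
      cases h' with
      | nil => exact Inv.nil n
    | cons a L' => simp at hl
  | @zero l v h =>
    cases h' with
    | nil => simp at hl
    | @zero l' v' h' =>
      exact Inv.zero (good_add h h')
  | @succ n l v L V h hI ih =>
    cases h' with
    | nil => simp at hl
    | @succ _ l' v' L' V' h' hI' =>
      have e1 : addT (l :: L) (l' :: L') = addP l l' :: addT L L' := rfl
      have e2 : addS (v :: V) (v' :: V') = sadd v v' :: addS V V' := rfl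
      rw [e1, e2]
      exact Inv.succ (good_add h h') (ih hI' (by simpa using hl))

theorem bh_val {B Dn : ℕ} (hA : A = 2 ^ B) (hD : (Dn : ℤ) = D) (l : List ℤ) : ∀ k : ℕ,
    (bhG B Dn l k).val = homP (R := ℤ) k l A D := by
  induction l with
  | nil => intro k; rfl
  | cons c l ih =>
    intro k
    show (sadd (ofZ c (Dn ^ k)) (sshl (bhG B Dn l (k - 1)) B)).val =
      (c : ℤ) * D ^ k + A * homP (R := ℤ) (k - 1) l A D
    rw [sadd_val, ofZ_val, sshl_val, ih, hA]
    push_cast
    rw [hD]
    ring

theorem length_formsL (X : List ℤ) (fm : List (List ℤ)) : ∀ P : List (List ℤ),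
    (formsL X fm P).length = min fm.length P.length := by
  induction fm with
  | nil =>
    intro P
    have : formsL X [] P = [] := by cases P <;> rfl
    simp [this]
  | cons l fm ih =>
    intro P
    cases P with
    | nil =>
      have : formsL X (l :: fm) [] = [] := rfl
      simp [this]
    | cons p P =>
      have : formsL X (l :: fm) (p :: P) = formL X l (p :: P) :: formsL X fm P := rfl
      rw [this, List.length_cons, ih, List.length_cons, List.length_cons]
      omega

theorem length_pwL (Y : List ℤ) (n : ℕ) : (pwL Y n).length = n + 1 := by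
  induction n with
  | zero => rfl
  | succ n ih => rw [pwL, List.length_cons, ih]

theorem length_dxT (n : ℕ) : ∀ L : List (List ℤ), (dxT n L).length = min n L.length := by
  induction n with
  | zero => intro L; simp [dxT]
  | succ n ih =>
    intro L
    cases L with
    | nil => simp [dxT]
    | cons l L => simp only [dxT, List.length_cons, ih]; omega

theorem length_dyT (n : ℕ) : ∀ L : List (List ℤ), (dyT n L).length = min n L.length := by
  induction n with
  | zero => intro L; simp [dyT]
  | succ n ih =>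
    intro L
    cases L with
    | nil => simp [dyT]
    | cons l L => simp only [dyT, List.length_cons, ih]; omega

theorem length_mkT (L : List (List ℤ)) : ∀ n : ℕ, (mkT n L).length = L.length := by
  induction L with
  | nil => intro n; simp [mkT]
  | cons l L ih =>
    intro n
    simp only [mkT, List.length_cons, ih]

theorem length_dbL (l : List ℤ) : ∀ n : ℕ, (dbL n l).length = l.length := by
  induction l with
  | nil => intro n; simp [dbL]
  | cons c l ih =>
    intro n
    simp only [dbL, List.length_cons, ih]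

theorem good_lin (B : ℕ) (x0 x1 : ℤ) :
    Good ((0 : ℕ) + (1 : ℕ) * 2 ^ B) (1 + 2 ^ B) 1 [x0, x1]
      (sadd (ofZ x0 1) (ofZ (x0 + x1) (Nat.pow 2 B))) := by
  refine ⟨by simp, ?_⟩
  rw [sadd_val, ofZ_val, ofZ_val]
  have : ((Nat.pow 2 B : ℕ) : ℤ) = 2 ^ B := by
    have : Nat.pow 2 B = 2 ^ B := rfl
    rw [this]
    push_cast
    rfl
  rw [this]
  simp only [homP]
  push_cast
  ring

theorem homP_one (l : List ℤ) (a : ℤ) : ∀ m : ℕ, homP (R := ℤ) m l a 1 = evZ l a := by
  induction l with
  | nil => intro m; rfl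
  | cons c l ih =>
    intro m
    simp only [homP, ih]
    show _ = c + a * evZ l a
    simp

theorem inv_one {k n : ℕ} (hk : 1 ≤ k) {a : ℤ} {L : List (List ℤ)} {V : List SM}
    (h : Inv a 1 1 0 n L V) : Inv a 1 k 0 n L V := by
  induction h with
  | nil n => exact Inv.nil n
  | zero h => exact Inv.zero h
  | @succ n l v L V h hI ih =>
    refine Inv.succ ⟨?_, ?_⟩ ih
    · have h1 := h.1
      have : 1 * (n + 1) ≤ k * (n + 1) := Nat.mul_le_mul_right _ hk
      omega
    · rw [h.2, homP_one, homP_one]

end R1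

open R1

theorem rowsV_rows {B k : ℕ} {fm : List (List ℤ)} {ch : Chart} {al : ℕ} (hk : 1 ≤ k)
    (hb : ch.be.length = k + 1) (hal : ch.al = al) (hfm : fm.length = 9) (hl : lenOK 8 fm = true) :
    RowsOf B (8 * k) (tabV fm ch) 0 1
      (rowsV B (formsG (sadd (ofZ ch.x0 1) (ofZ (ch.x0 + ch.x1) (Nat.pow 2 B))) fm
        (pwS (sadd (ofZ ch.y0 1) (ofZ (ch.y0 + ch.y1) (Nat.pow 2 B))) 8)) al ch.be k) := by
  have hD : ((Nat.succ (2 ^ B) : ℕ) : ℤ) = 1 + 2 ^ B := by push_cast; ring
  have hC := inv_forms (good_lin B ch.x0 ch.x1) fm (inv_pw' (good_lin B ch.y0 ch.y1) 8)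
  have hb' : Good ((0 : ℕ) + (1 : ℕ) * 2 ^ B) (1 + 2 ^ B) k ch.be
      (bhG B (Nat.succ (2 ^ B)) ch.be k) :=
    ⟨hb.le, bh_val (by push_cast; ring) hD ch.be k⟩
  have h := inv_sc' (al := al) hD (inv_sh hb' (inv_zip hk hD hC))
  have e : k * 8 + 0 = 8 * k := by ring
  rw [e] at h
  unfold RowsOf tabV
  rw [hal]
  exact h

theorem rowsT_rows {B k : ℕ} {t : Tabs} {ch : Chart} {al : ℕ} (hk : 1 ≤ k)
    (hb : ch.be.length = k + 1) (hal : ch.al = al) (ht : tabsOK t = true) :
    RowsOf B (8 * k) (tabT t ch) 0 1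
      (let X := sadd (ofZ ch.x0 1) (ofZ (ch.x0 + ch.x1) (Nat.pow 2 B))
       let P := pwS (sadd (ofZ ch.y0 1) (ofZ (ch.y0 + ch.y1) (Nat.pow 2 B))) 7
       rowsT B ch.x1 ch.y1 (formsG X t.fx P) (formsG X t.fy P) (formsG X t.fz P) al ch.be k) := by
  have hD : ((Nat.succ (2 ^ B) : ℕ) : ℤ) = 1 + 2 ^ B := by push_cast; ring
  have hDk : ((Nat.succ (2 ^ B) ^ k : ℕ) : ℤ) = (1 + 2 ^ B : ℤ) ^ k := by
    push_cast; ring
  unfold tabsOK at ht
  simp only [Bool.and_eq_true, decide_eq_true_eq] at ht
  obtain ⟨⟨⟨⟨⟨hfm', _⟩, hx⟩, hy⟩, hz⟩, _⟩ := ht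
  have hfm : t.fm.length = 9 := Nat.eq_of_beq_eq_true hfm'
  have lx : t.fx.length = 8 := by rw [hx, length_dxT, hfm]; rfl
  have ly : t.fy.length = 8 := by rw [hy, length_dyT, hfm]; rfl
  have lz : t.fz.length = 8 := by rw [hz, length_mkT, List.length_tail, hfm]
  have hP := inv_pw' (good_lin B ch.y0 ch.y1) 7
  have hX := good_lin B ch.x0 ch.x1
  have hCx := inv_forms hX t.fx hP
  have hCy := inv_forms hX t.fy hP
  have hCz := inv_forms hX t.fz hP
  have hb' : Good ((0 : ℕ) + (1 : ℕ) * 2 ^ B) (1 + 2 ^ B) k ch.be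
      (bhG B (Nat.succ (2 ^ B)) ch.be k) :=
    ⟨hb.le, bh_val (by push_cast; ring) hD ch.be k⟩
  have hbd : Good ((0 : ℕ) + (1 : ℕ) * 2 ^ B) (1 + 2 ^ B) (k - 1) (dbL 1 ch.be.tail)
      (bhG B (Nat.succ (2 ^ B)) (dbL 1 ch.be.tail) (k - 1)) :=
    ⟨by rw [length_dbL, List.length_tail, hb]; omega, bh_val (by push_cast; ring) hD _ _⟩
  have h1 := inv_map (f := smulP ch.x1)
    (g := fun x => smulZ ch.x1 (smulN (Nat.succ (2 ^ B) ^ k) x))
    (fun d l v h => good_smulZ ch.x1 (good_up hDk h)) hCx
  have h2 := inv_map (f := smulP ch.y1)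
    (g := fun x => smulZ ch.y1 (smulN (Nat.succ (2 ^ B) ^ k) x))
    (fun d l v h => good_smulZ ch.y1 (good_up hDk h)) hCy
  have h3 := inv_map (f := mulP (dbL 1 ch.be.tail)) (j := k)
    (g := fun x => smul (bhG B (Nat.succ (2 ^ B)) (dbL 1 ch.be.tail) (k - 1))
      (smulN (Nat.succ (2 ^ B)) x))
    (fun d l v h => good_cast (by omega) (good_mul hbd (good_up (j := 1) (by rw [hD, pow_one]) h)))
    hCz
  have h4 := inv_add h1 (inv_add h2 h3 (by simp [length_formsL, length_pwL, ly, lz]))
    (by
      have : (addT (List.map (smulP ch.y1) (formsL [ch.x0, ch.x1] t.fy (pwL [ch.y0, ch.y1] 7)))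
        (List.map (mulP (dbL 1 ch.be.tail))
          (formsL [ch.x0, ch.x1] t.fz (pwL [ch.y0, ch.y1] 7)))).length = 8 := by
        have key : ∀ L M : List (List ℤ), (addT L M).length = max L.length M.length := by
          intro L
          induction L with
          | nil => intro M; simp [addT]
          | cons a L ih =>
            intro M
            cases M with
            | nil => simp [addT]
            | cons b M => simp only [addT, List.length_cons, ih]; omega
        rw [key]
        simp [length_formsL, length_pwL, ly, lz]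
      rw [this]
      simp [length_formsL, length_pwL, lx])
  have h := inv_sc' (al := al) hD (inv_sh hb' (inv_zip hk hD h4))
  have e : k * 7 + (0 + k) = 8 * k := by ring
  rw [e] at h
  unfold RowsOf tabT
  rw [hal]
  exact h

/-- rows on the vertical sides `t = 0` and `t = 1` -/
theorem rowsA_rows (B : ℕ) {fm : List (List ℤ)} {ch : Chart} {al : ℕ} (hal : ch.al = al)
    (hfm : fm.length = 9) (right : Bool) :
    RowsOf B 0 (atT (tabV fm ch) (if right then 1 else 0)) 0 0
      (rowsA fm (if right then ch.x0 + ch.x1 else ch.x0) (if right then ch.y0 + ch.y1 else ch.y0)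
        al (if right then ch.be.foldr (· + ·) 0 else ch.be.headD 0)) := by
  obtain ⟨a, ha⟩ : ∃ a : ℤ, a = if right then 1 else 0 := ⟨_, rfl⟩
  have hlin : ∀ x0 x1 : ℤ, Good a 1 1 [x0, x1] (ofZ (if right then x0 + x1 else x0) 1) := by
    intro x0 x1
    refine ⟨by simp, ?_⟩
    rw [G1a.ofZ_val, ha]
    cases right <;> simp [homP]
  have hbe : Good a 1 (ch.be.length + 1) ch.be
      (ofZ (if right then ch.be.foldr (· + ·) 0 else ch.be.headD 0) 1) := by
    refine ⟨by omega, ?_⟩
    rw [G1a.ofZ_val, homP_one, ha]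
    cases right
    · simp only [Bool.false_eq_true, if_false]
      cases ch.be with
      | nil => simp [evZ]
      | cons c l => simp [evZ]
    · simp only [if_true]
      have : ∀ l : List ℤ, l.foldr (· + ·) 0 = evZ l 1 := by
        intro l
        induction l with
        | nil => rfl
        | cons c l ih =>
          show c + l.foldr (· + ·) 0 = c + 1 * evZ l 1
          rw [ih]; ring
      rw [this]
      simp
  have hC := inv_forms (hlin ch.x0 ch.x1) fm (inv_pw' (hlin ch.y0 ch.y1) 8)
  have h := inv_sc' (al := al) (Dn := 1) (by simp) (inv_sh hbe (inv_one (by omega) hC))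
  rw [one_pow, Nat.mul_one] at h
  unfold RowsOf atT tabV
  rw [List.map_map, ← ha, hal]
  refine h.trans ?_
  refine List.map_congr_left ?_
  intro l _
  rw [homP_one]
  simp [homP]

end Oct.N
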